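import Mathlib

set_option autoImplicit false

open HomogeneousIdeal

namespace Pool.Agent.CoreIdeals

universe u v

/-- `J` is a reduction of the ideal `I`: `J ⊆ I` and `J * I ^ n = I ^ (n + 1)` for some `n ≥ 0`. -/
def IsReduction {S : Type u} [CommRing S] (I J : Ideal S) : Prop :=
  J ≤ I ∧ ∃ n : ℕ, J * I ^ n = I ^ (n + 1)

/-- The core of `I`: the intersection of all reductions of `I` (homogeneous or not). -/
def core {S : Type u} [CommRing S] (I : Ideal S) : Ideal S :=
  sInf {J : Ideal S | IsReduction I J}

/-- `A = ⊕ A_i` is a standard graded `k`-algebra: `A_0 = k` (the structure map `k → A` is injective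
with image `A_0`) and `A` is generated as a `k`-algebra by finitely many elements of degree one. -/
class IsStandardGraded {k : Type u} {A : Type v} [CommRing k] [CommRing A] [Algebra k A]
    (𝒜 : ℕ → Submodule k A) [GradedAlgebra 𝒜] : Prop where
  injective_algebraMap : Function.Injective (algebraMap k A)
  degree_zero : ∀ a ∈ 𝒜 0, ∃ c : k, algebraMap k A c = a
  finitely_generated : ∃ s : Finset A, (s : Set A) ⊆ (𝒜 1 : Set A) ∧
    Algebra.adjoin k (s : Set A) = ⊤

/-- The ideal `A_+` of a graded algebra. -/
abbrev plus {k : Type u} {A : Type v} [CommRing k] [CommRing A] [Algebra k A]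
    (𝒜 : ℕ → Submodule k A) [GradedAlgebra 𝒜] : Ideal A :=
  (HomogeneousIdeal.irrelevant 𝒜).toIdeal

section Plus

variable {k : Type u} {A : Type v} [Field k] [CommRing A] [Algebra k A]
    (𝒜 : ℕ → Submodule k A) [GradedAlgebra 𝒜] [hs : IsStandardGraded 𝒜]

theorem algebraMap_notMem_plus {c : k} (hc : c ≠ 0) : algebraMap k A c ∉ plus 𝒜 := by
  intro h
  have h' : algebraMap k A c ∈ HomogeneousIdeal.irrelevant 𝒜 := h
  rw [HomogeneousIdeal.mem_irrelevant_iff] at h'
  have h0 : algebraMap k A c ∈ 𝒜 0 := SetLike.algebraMap_mem_graded 𝒜 c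
  rw [GradedRing.proj_apply, DirectSum.decompose_of_mem_same 𝒜 h0] at h'
  exact hc (hs.injective_algebraMap (by rw [h', map_zero]))

instance plus_isMaximal : (plus 𝒜).IsMaximal := by
  rw [Ideal.isMaximal_iff]
  constructor
  · have := algebraMap_notMem_plus 𝒜 (one_ne_zero (α := k))
    rwa [map_one] at this
  · intro J x hJ hx hxJ
    obtain ⟨c, hc⟩ := hs.degree_zero (GradedRing.proj 𝒜 0 x) (SetLike.coe_mem _)
    have hd : x - algebraMap k A c ∈ plus 𝒜 := by
      change x - algebraMap k A c ∈ HomogeneousIdeal.irrelevant 𝒜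
      rw [HomogeneousIdeal.mem_irrelevant_iff, map_sub]
      have h0 : algebraMap k A c ∈ 𝒜 0 := SetLike.algebraMap_mem_graded 𝒜 c
      rw [GradedRing.proj_apply 𝒜 0 (algebraMap k A c), DirectSum.decompose_of_mem_same 𝒜 h0, ← hc,
        sub_self]
    have hc0 : c ≠ 0 := by
      rintro rfl
      rw [map_zero, sub_zero] at hd
      exact hx hd
    have hcJ : algebraMap k A c ∈ J := by
      have := J.sub_mem hxJ (hJ hd)
      simpa using this
    have := J.mul_mem_left (algebraMap k A c⁻¹) hcJ
    rwa [← map_mul, inv_mul_cancel₀ hc0, map_one] at this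

instance plus_isPrime : (plus 𝒜).IsPrime := (plus_isMaximal 𝒜).isPrime

end Plus

section Localization

variable {A : Type u} [CommRing A] (P : Ideal A) [hP : P.IsMaximal]
  (R : Type v) [CommRing R] [Algebra A R] [IsLocalization.AtPrime R P]

/-- Ideals between a power of `P` and `P` are contracted from the localization at `P`. -/
theorem under_map_of_pow_le {Q : Ideal A} {N : ℕ} (h1 : P ^ N ≤ Q) (h2 : Q ≤ P) :
    (Q.map (algebraMap A R)).comap (algebraMap A R) = Q := by
  have hrad : Q.radical = P := by
    apply le_antisymm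
    · exact (hP.isPrime.radical_le_iff).2 h2
    · intro x hx
      exact ⟨N, h1 (Ideal.pow_mem_pow hx N)⟩
  have hprim : Q.IsPrimary := Ideal.isPrimary_of_isMaximal_radical (by rw [hrad]; exact hP)
  have hdisj : Disjoint (P.primeCompl : Set A) (Q : Set A) := by
    rw [Set.disjoint_left]
    intro a ha haQ
    exact ha (h2 haQ)
  exact IsLocalization.under_map_of_isPrimary_disjoint P.primeCompl R hprim hdisj

theorem isReduction_map {I J : Ideal A} (h : IsReduction I J) :
    IsReduction (I.map (algebraMap A R)) (J.map (algebraMap A R)) := by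
  obtain ⟨hle, n, hn⟩ := h
  refine ⟨Ideal.map_mono hle, n, ?_⟩
  rw [← Ideal.map_pow, ← Ideal.map_pow, ← Ideal.map_mul, hn]

theorem IsReduction.pow_le {S : Type u} [CommRing S] {I J : Ideal S} (h : IsReduction I J) :
    ∃ n : ℕ, I ^ n ≤ J := by
  obtain ⟨_, n, hn⟩ := h
  exact ⟨n + 1, hn ▸ Ideal.mul_le_left⟩

/-- A reduction of `P` is contracted from the localization at the maximal ideal `P`. -/
theorem under_map_of_isReduction {J : Ideal A} (h : IsReduction P J) :
    (J.map (algebraMap A R)).comap (algebraMap A R) = J := by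
  obtain ⟨N, hN⟩ := h.pow_le
  exact under_map_of_pow_le P R hN h.1

theorem isReduction_comap {J' : Ideal R} (h : IsReduction (P.map (algebraMap A R)) J') :
    IsReduction P (J'.comap (algebraMap A R)) := by
  obtain ⟨hle, n, hn⟩ := h
  set J := J'.comap (algebraMap A R) with hJ
  have hPP : (P.map (algebraMap A R)).comap (algebraMap A R) = P :=
    under_map_of_pow_le P R (N := 1) (by rw [pow_one]) le_rfl
  have hJP : J ≤ P := by
    calc J ≤ (P.map (algebraMap A R)).comap (algebraMap A R) := Ideal.comap_mono hle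
      _ = P := hPP
  have hmapJ : J.map (algebraMap A R) = J' := IsLocalization.map_under P.primeCompl R J'
  have hpow : P ^ (n + 1) ≤ J := by
    rw [hJ, ← Ideal.map_le_iff_le_comap, Ideal.map_pow, ← hn]
    exact Ideal.mul_le_left
  refine ⟨hJP, n, ?_⟩
  have e1 : (J * P ^ n).map (algebraMap A R) = (P ^ (n + 1)).map (algebraMap A R) := by
    rw [Ideal.map_mul, Ideal.map_pow, Ideal.map_pow, hmapJ, hn]
  have c1 : ((J * P ^ n).map (algebraMap A R)).comap (algebraMap A R) = J * P ^ n := by
    apply under_map_of_pow_le P R (N := (n + 1) + n)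
    · rw [pow_add]
      exact Ideal.mul_mono_left hpow
    · exact Ideal.mul_le_left.trans hJP
  have c2 : ((P ^ (n + 1)).map (algebraMap A R)).comap (algebraMap A R) = P ^ (n + 1) := by
    apply under_map_of_pow_le P R (N := n + 1) le_rfl
    exact Ideal.pow_le_self (by omega)
  rw [← c1, e1, c2]

theorem core_map_eq : core (P.map (algebraMap A R)) = (core P).map (algebraMap A R) := by
  apply le_antisymm
  · intro z hz
    obtain ⟨a, s, rfl⟩ := IsLocalization.exists_mk'_eq P.primeCompl z
    rw [IsLocalization.mk'_mem_iff] at hz ⊢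
    apply Ideal.mem_map_of_mem
    rw [core, Ideal.mem_sInf]
    intro J hJ
    rw [core, Ideal.mem_sInf] at hz
    have := hz (isReduction_map R hJ : IsReduction _ _)
    rw [← Ideal.mem_comap, under_map_of_isReduction P R hJ] at this
    exact this
  · rw [core]
    apply le_sInf
    intro J' hJ'
    have h1 : core P ≤ J'.comap (algebraMap A R) := sInf_le (isReduction_comap P R hJ')
    exact Ideal.map_le_iff_le_comap.2 h1

end Localization

/-- For the localization `R` of `A` at `A_+`, with maximal ideal `m = A_+ R`: for *every* set `𝒥` of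
homogeneous reductions of `A_+`, the core of `m` is strictly smaller than the extension to `R` of
the intersection of `𝒥`. -/
def CoreLtHomogeneous {k : Type u} {A : Type v} [Field k] [CommRing A] [Algebra k A]
    (𝒜 : ℕ → Submodule k A) [GradedAlgebra 𝒜] [IsStandardGraded 𝒜] : Prop :=
  ∀ (R : Type v) [CommRing R] [Algebra A R] [IsLocalization.AtPrime R (plus 𝒜)]
    (𝒥 : Set (Ideal A)), (∀ J ∈ 𝒥, IsReduction (plus 𝒜) J ∧ J.IsHomogeneous 𝒜) →
    core ((plus 𝒜).map (algebraMap A R)) < (sInf 𝒥).map (algebraMap A R)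

end Pool.Agent.CoreIdeals
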