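import Mathlib

set_option autoImplicit false

namespace Pool.Agent.CoreIdeals

universe u v w

section

variable {k : Type u} {S : Type v} {A : Type w} [CommRing k] [CommRing S] [Algebra k S]
  [CommRing A] [Algebra k A] (𝒮 : ℕ → Submodule k S) [GradedAlgebra 𝒮] (f : S →ₐ[k] A)

/-- The image of a grading under an algebra homomorphism. -/
def pushGrading : ℕ → Submodule k A := fun n => (𝒮 n).map f.toLinearMap

omit [GradedAlgebra 𝒮] in
theorem mem_pushGrading {n : ℕ} {a : A} : a ∈ pushGrading 𝒮 f n ↔ ∃ s ∈ 𝒮 n, f s = a := by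
  simp [pushGrading]

theorem pushGrading_isInternal (hf : Function.Surjective f)
    (hker : (RingHom.ker f).IsHomogeneous 𝒮) :
    DirectSum.IsInternal (pushGrading 𝒮 f) := by
  classical
  constructor
  · -- injectivity
    rw [injective_iff_map_eq_zero]
    intro d hd
    -- choose lifts
    have hl : ∀ n : ℕ, ∃ s : 𝒮 n, f (s : S) = (d n : A) := by
      intro n
      obtain ⟨s, hs, hs'⟩ := (mem_pushGrading 𝒮 f).1 (d n).2
      exact ⟨⟨s, hs⟩, hs'⟩
    choose s hs using hl
    have hsum : f (∑ n ∈ DFinsupp.support d, (s n : S)) = 0 := by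
      rw [map_sum]
      simp_rw [hs]
      have := hd
      rw [DirectSum.coeAddMonoidHom_eq_dfinsuppSum] at this
      exact this
    have hmem : (∑ n ∈ DFinsupp.support d, (s n : S)) ∈ RingHom.ker f := hsum
    ext n
    by_cases hn : n ∈ DFinsupp.support d
    · have h1 := hker n hmem
      have h2 : ((DirectSum.decompose 𝒮 (∑ m ∈ DFinsupp.support d, (s m : S))) n : S) = s n := by
        rw [DirectSum.decompose_sum, DirectSum.sum_apply, AddSubmonoidClass.coe_finsetSum,
          Finset.sum_eq_single n]
        · rw [DirectSum.decompose_of_mem_same 𝒮 (s n).2]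
        · intro m _ hmn
          rw [DirectSum.decompose_of_mem_ne 𝒮 (s m).2 hmn]
        · intro h; exact absurd hn h
      rw [h2] at h1
      have h3 : f (s n : S) = 0 := h1
      rw [hs] at h3
      simpa using h3
    · simp only [DFinsupp.mem_support_toFun, ne_eq, not_not] at hn
      rw [hn]
      rfl
  · -- surjectivity
    intro a
    obtain ⟨s, rfl⟩ := hf a
    refine ⟨∑ n ∈ DFinsupp.support (DirectSum.decompose 𝒮 s),
      DirectSum.of (fun n => pushGrading 𝒮 f n) n
        ⟨f (DirectSum.decompose 𝒮 s n : S), (mem_pushGrading 𝒮 f).2 ⟨_, SetLike.coe_mem _, rfl⟩⟩, ?_⟩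
    rw [map_sum]
    simp only [DirectSum.coeAddMonoidHom_of]
    rw [← map_sum, DirectSum.sum_support_decompose 𝒮 s]

/-- The image of a grading under a surjective algebra homomorphism with homogeneous kernel is a
grading. -/
@[instance_reducible]
noncomputable def pushGradedAlgebra (hf : Function.Surjective f)
    (hker : (RingHom.ker f).IsHomogeneous 𝒮) : GradedAlgebra (pushGrading 𝒮 f) :=
  letI hdec : DirectSum.Decomposition (pushGrading 𝒮 f) :=
    (pushGrading_isInternal 𝒮 f hf hker).chooseDecomposition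
  { hdec with
    one_mem := (mem_pushGrading 𝒮 f).2 ⟨1, SetLike.GradedOne.one_mem, map_one f⟩
    mul_mem := by
      intro i j a b ha hb
      obtain ⟨s, hs, rfl⟩ := (mem_pushGrading 𝒮 f).1 ha
      obtain ⟨t, ht, rfl⟩ := (mem_pushGrading 𝒮 f).1 hb
      exact (mem_pushGrading 𝒮 f).2 ⟨s * t, SetLike.GradedMul.mul_mem hs ht, map_mul f s t⟩ }

end

end Pool.Agent.CoreIdeals
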