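import Pool.Agent.CoreIdeals.Basic
import Pool.Agent.CoreIdeals.Quotient

set_option autoImplicit false

open MvPolynomial

namespace Pool.Agent.CoreIdeals.Example

universe u

variable (k : Type u) [Field k]

/-- The polynomial ring `k[x, y, c, g]`, `x = X 0`, `y = X 1`, `c = X 2`, `g = X 3`. -/
abbrev Poly : Type u := MvPolynomial (Fin 4) k

attribute [local instance] MvPolynomial.gradedAlgebra

/-- The relations `xy, y³, xc, yc - xg, c², cg, g²`. -/
noncomputable def relSet : Set (Poly k) :=
  {X 0 * X 1, X 1 ^ 3, X 0 * X 2, X 1 * X 2 - X 0 * X 3, X 2 ^ 2, X 2 * X 3, X 3 ^ 2}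

/-- The ideal generated by the relations. -/
noncomputable def relIdeal : Ideal (Poly k) := Ideal.span (relSet k)

/-- `A = k[x, y, c, g] / (xy, y³, xc, yc - xg, c², cg, g²)`. -/
abbrev Alg : Type u := Poly k ⧸ relIdeal k

/-- The quotient map. -/
noncomputable abbrev quo : Poly k →ₐ[k] Alg k := Ideal.Quotient.mkₐ k (relIdeal k)

theorem quo_surjective : Function.Surjective (quo k) := Ideal.Quotient.mkₐ_surjective k _

theorem ker_quo : RingHom.ker (quo k) = relIdeal k := Ideal.Quotient.mkₐ_ker k _

theorem isHomogeneous_ker :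
    (RingHom.ker (quo k)).IsHomogeneous (homogeneousSubmodule (Fin 4) k) := by
  rw [ker_quo]
  apply Ideal.homogeneous_span
  have hX : ∀ i : Fin 4, (X i : Poly k).IsHomogeneous 1 := fun i => isHomogeneous_X k i
  intro p hp
  simp only [relSet, Set.mem_insert_iff, Set.mem_singleton_iff] at hp
  rcases hp with rfl | rfl | rfl | rfl | rfl | rfl | rfl
  · exact ⟨2, (hX 0).mul (hX 1)⟩
  · exact ⟨3, by simpa using (hX 1).pow 3⟩
  · exact ⟨2, (hX 0).mul (hX 2)⟩
  · exact ⟨2, Submodule.sub_mem _ ((hX 1).mul (hX 2)) ((hX 0).mul (hX 3))⟩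
  · exact ⟨2, by simpa using (hX 2).pow 2⟩
  · exact ⟨2, (hX 2).mul (hX 3)⟩
  · exact ⟨2, by simpa using (hX 3).pow 2⟩

/-- The standard grading of `A`. -/
noncomputable abbrev grading : ℕ → Submodule k (Alg k) :=
  pushGrading (homogeneousSubmodule (Fin 4) k) (quo k)

noncomputable instance : GradedAlgebra (grading k) :=
  pushGradedAlgebra (homogeneousSubmodule (Fin 4) k) (quo k) (quo_surjective k)
    (isHomogeneous_ker k)

/-- The generators of `A`. -/
noncomputable def gen (i : Fin 4) : Alg k := quo k (X i)

theorem gen_mem (i : Fin 4) : gen k i ∈ grading k 1 :=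
  (mem_pushGrading _ _).2 ⟨X i, isHomogeneous_X k i, rfl⟩

theorem quo_rel {p : Poly k} (hp : p ∈ relSet k) : quo k p = 0 := by
  have : p ∈ RingHom.ker (quo k) := by
    rw [ker_quo]
    exact Ideal.subset_span hp
  exact this

theorem xy : gen k 0 * gen k 1 = 0 := by
  rw [gen, gen, ← map_mul]; exact quo_rel k (by simp [relSet])
theorem y3 : gen k 1 ^ 3 = 0 := by
  rw [gen, ← map_pow]; exact quo_rel k (by simp [relSet])
theorem xc : gen k 0 * gen k 2 = 0 := by
  rw [gen, gen, ← map_mul]; exact quo_rel k (by simp [relSet])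
theorem yc : gen k 1 * gen k 2 = gen k 0 * gen k 3 := by
  rw [← sub_eq_zero, gen, gen, gen, gen, ← map_mul, ← map_mul, ← map_sub]
  exact quo_rel k (by simp [relSet])
theorem c2 : gen k 2 * gen k 2 = 0 := by
  rw [← pow_two, gen, ← map_pow]; exact quo_rel k (by simp [relSet])
theorem cg : gen k 2 * gen k 3 = 0 := by
  rw [gen, gen, ← map_mul]; exact quo_rel k (by simp [relSet])
theorem g2 : gen k 3 * gen k 3 = 0 := by
  rw [← pow_two, gen, ← map_pow]; exact quo_rel k (by simp [relSet])

/-- The map `k[x, y, c, g] → k[x]` killing `y, c, g`. -/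
noncomputable def polyToLine : Poly k →ₐ[k] Polynomial k :=
  aeval (fun i : Fin 4 => if i = 0 then (Polynomial.X : Polynomial k) else 0)

theorem polyToLine_rel (p : Poly k) (hp : p ∈ relIdeal k) : polyToLine k p = 0 := by
  have : relIdeal k ≤ RingHom.ker (polyToLine k) := by
    rw [relIdeal, Ideal.span_le]
    intro q hq
    simp only [relSet, Set.mem_insert_iff, Set.mem_singleton_iff] at hq
    rcases hq with rfl | rfl | rfl | rfl | rfl | rfl | rfl <;>
      simp [RingHom.mem_ker, polyToLine]
  exact this hp

/-- The projection `A → k[x]` killing `y, c, g`. -/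
noncomputable def toLine : Alg k →ₐ[k] Polynomial k :=
  Ideal.Quotient.liftₐ (relIdeal k) (polyToLine k) (polyToLine_rel k)

theorem toLine_quo (p : Poly k) : toLine k (quo k p) = polyToLine k p := rfl

theorem toLine_gen (i : Fin 4) : toLine k (gen k i) = if i = 0 then Polynomial.X else 0 := by
  rw [gen, toLine_quo, polyToLine, aeval_X]

instance : IsStandardGraded (grading k) where
  injective_algebraMap := by
    have h : Function.Injective (⇑(toLine k) ∘ ⇑(algebraMap k (Alg k))) := by
      intro a b hab
      simp only [Function.comp_apply, AlgHom.commutes] at hab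
      exact Polynomial.C_injective hab
    exact Function.Injective.of_comp h
  degree_zero := by
    intro a ha
    obtain ⟨s, hs, rfl⟩ := (mem_pushGrading _ _).1 ha
    have h0 : s.totalDegree = 0 := by
      have := (hs : s.IsHomogeneous 0).totalDegree_le
      omega
    rw [totalDegree_eq_zero_iff_eq_C] at h0
    refine ⟨coeff 0 s, ?_⟩
    conv_rhs => rw [h0]
    rfl
  finitely_generated := by
    classical
    refine ⟨Finset.univ.image (gen k), ?_, ?_⟩
    · intro a ha
      simp only [Finset.coe_image, Finset.coe_univ, Set.image_univ, Set.mem_range] at ha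
      obtain ⟨i, rfl⟩ := ha
      exact gen_mem k i
    · have h1 : ((Finset.univ.image (gen k) : Finset (Alg k)) : Set (Alg k)) =
          (quo k) '' (Set.range (X : Fin 4 → Poly k)) := by
        ext a
        simp [gen]
      rw [h1, ← AlgHom.map_adjoin, adjoin_range_X, Algebra.map_top, AlgHom.range_eq_top]
      exact quo_surjective k

end Pool.Agent.CoreIdeals.Example
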