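import Pool.Agent.CoreIdeals.Example

set_option autoImplicit false

open MvPolynomial

namespace Pool.Agent.CoreIdeals.Example

universe u

variable (k : Type u) [Field k]

attribute [local instance] MvPolynomial.gradedAlgebra

/-- `A_+`. -/
noncomputable abbrev P : Ideal (Alg k) := plus (grading k)

theorem gen_mem_P (i : Fin 4) : gen k i ∈ P k := by
  have : gen k i ∈ HomogeneousIdeal.irrelevant (grading k) :=
    HomogeneousIdeal.mem_irrelevant_of_mem (grading k) (i := 1) (by omega) (gen_mem k i)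
  exact this

theorem exists_const (p : Poly k) :
    ∃ c : k, quo k p - algebraMap k (Alg k) c ∈ Ideal.span (Set.range (gen k)) := by
  induction p using MvPolynomial.induction_on with
  | C a =>
    refine ⟨a, ?_⟩
    have : quo k (C a) = algebraMap k (Alg k) a := rfl
    rw [this, sub_self]
    exact Ideal.zero_mem _
  | add p q hp hq =>
    obtain ⟨c, hc⟩ := hp
    obtain ⟨d, hd⟩ := hq
    refine ⟨c + d, ?_⟩
    have : quo k (p + q) - algebraMap k (Alg k) (c + d) =
        (quo k p - algebraMap k (Alg k) c) + (quo k q - algebraMap k (Alg k) d) := by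
      rw [map_add, map_add]; ring
    rw [this]
    exact Ideal.add_mem _ hc hd
  | mul_X p i _ =>
    refine ⟨0, ?_⟩
    rw [map_mul, map_zero, sub_zero]
    exact Ideal.mul_mem_left _ _ (Ideal.subset_span ⟨i, rfl⟩)

theorem P_eq : P k = Ideal.span (Set.range (gen k)) := by
  apply le_antisymm
  · intro a ha
    obtain ⟨p, rfl⟩ := quo_surjective k a
    obtain ⟨c, hc⟩ := exists_const k p
    have hle : Ideal.span (Set.range (gen k)) ≤ P k := by
      rw [Ideal.span_le]
      rintro _ ⟨i, rfl⟩
      exact gen_mem_P k i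
    have h1 : algebraMap k (Alg k) c ∈ P k := by
      have := Ideal.sub_mem _ ha (hle hc)
      simpa using this
    have hc0 : c = 0 := by
      by_contra h
      exact algebraMap_notMem_plus (grading k) h h1
    rw [hc0, map_zero, sub_zero] at hc
    exact hc
  · rw [Ideal.span_le]
    rintro _ ⟨i, rfl⟩
    exact gen_mem_P k i

theorem P_mul_le {T : Set (Alg k)} {Q : Ideal (Alg k)} (h : ∀ i : Fin 4, ∀ t ∈ T, gen k i * t ∈ Q) :
    P k * Ideal.span T ≤ Q := by
  rw [P_eq, Ideal.span_mul_span, Ideal.span_le]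
  intro a ha
  obtain ⟨_, ⟨i, rfl⟩, t, ht, rfl⟩ := Set.mem_mul.1 ha
  exact h i t ht

/-- Quadratic part. -/
noncomputable def Q2 : Set (Alg k) :=
  {gen k 0 ^ 2, gen k 1 ^ 2, gen k 0 * gen k 3, gen k 1 * gen k 3}

/-- Cubic part. -/
noncomputable def Q3 : Set (Alg k) := {gen k 0 ^ 3, gen k 1 ^ 2 * gen k 3}

theorem P_sq : P k * P k ≤ Ideal.span (Q2 k) := by
  have h1 : P k * P k = P k * Ideal.span (Set.range (gen k)) := by rw [← P_eq]
  rw [h1]
  apply P_mul_le
  rintro i _ ⟨j, rfl⟩
  have m0 : gen k 0 ^ 2 ∈ Ideal.span (Q2 k) := Ideal.subset_span (by simp [Q2])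
  have m1 : gen k 1 ^ 2 ∈ Ideal.span (Q2 k) := Ideal.subset_span (by simp [Q2])
  have m2 : gen k 0 * gen k 3 ∈ Ideal.span (Q2 k) := Ideal.subset_span (by simp [Q2])
  have m3 : gen k 1 * gen k 3 ∈ Ideal.span (Q2 k) := Ideal.subset_span (by simp [Q2])
  have z : ∀ a : Alg k, a = 0 → a ∈ Ideal.span (Q2 k) := by
    rintro _ rfl; exact Ideal.zero_mem _
  fin_cases i <;> fin_cases j <;> simp only [Fin.zero_eta, Fin.mk_one, Fin.reduceFinMk]
  · rw [← pow_two]; exact m0
  · exact z _ (xy k)
  · exact z _ (xc k)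
  · exact m2
  · rw [mul_comm]; exact z _ (xy k)
  · rw [← pow_two]; exact m1
  · rw [yc]; exact m2
  · exact m3
  · rw [mul_comm]; exact z _ (xc k)
  · rw [mul_comm, yc]; exact m2
  · exact z _ (c2 k)
  · exact z _ (cg k)
  · rw [mul_comm]; exact m2
  · rw [mul_comm]; exact m3
  · rw [mul_comm]; exact z _ (cg k)
  · exact z _ (g2 k)

theorem x2g : gen k 0 ^ 2 * gen k 3 = 0 := by
  linear_combination (-gen k 0) * yc k + gen k 2 * xy k

theorem P_cube : P k * Ideal.span (Q2 k) ≤ Ideal.span (Q3 k) := by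
  apply P_mul_le
  intro i t ht
  have m0 : gen k 0 ^ 3 ∈ Ideal.span (Q3 k) := Ideal.subset_span (by simp [Q3])
  have m1 : gen k 1 ^ 2 * gen k 3 ∈ Ideal.span (Q3 k) := Ideal.subset_span (by simp [Q3])
  have z : ∀ a : Alg k, a = 0 → a ∈ Ideal.span (Q3 k) := by
    rintro _ rfl; exact Ideal.zero_mem _
  simp only [Q2, Set.mem_insert_iff, Set.mem_singleton_iff] at ht
  rcases ht with rfl | rfl | rfl | rfl <;> fin_cases i <;>
    simp only [Fin.zero_eta, Fin.mk_one, Fin.reduceFinMk]
  · rw [← pow_succ']; exact m0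
  · exact z _ (by linear_combination (gen k 0) * xy k)
  · exact z _ (by linear_combination (gen k 0) * xc k)
  · exact z _ (by linear_combination x2g k)
  · exact z _ (by linear_combination (gen k 1) * xy k)
  · exact z _ (by linear_combination y3 k)
  · exact z _ (by linear_combination (gen k 1) * yc k + (gen k 3) * xy k)
  · rw [mul_comm]; exact m1
  · exact z _ (by linear_combination x2g k)
  · exact z _ (by linear_combination (gen k 3) * xy k)
  · exact z _ (by linear_combination (gen k 3) * xc k)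
  · exact z _ (by linear_combination (gen k 0) * g2 k)
  · exact z _ (by linear_combination (gen k 3) * xy k)
  · have : gen k 1 * (gen k 1 * gen k 3) = gen k 1 ^ 2 * gen k 3 := by ring
    rw [this]; exact m1
  · exact z _ (by linear_combination (gen k 1) * cg k)
  · exact z _ (by linear_combination (gen k 1) * g2 k)

theorem P_fourth : P k * Ideal.span (Q3 k) ≤ Ideal.span {gen k 0 ^ 4} := by
  apply P_mul_le
  intro i t ht
  have m0 : gen k 0 ^ 4 ∈ Ideal.span {gen k 0 ^ 4} := Ideal.subset_span (by simp)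
  have z : ∀ a : Alg k, a = 0 → a ∈ Ideal.span {gen k 0 ^ 4} := by
    rintro _ rfl; exact Ideal.zero_mem _
  simp only [Q3, Set.mem_insert_iff, Set.mem_singleton_iff] at ht
  rcases ht with rfl | rfl <;> fin_cases i <;>
    simp only [Fin.zero_eta, Fin.mk_one, Fin.reduceFinMk]
  · rw [← pow_succ']; exact m0
  · exact z _ (by linear_combination (gen k 0 ^ 2) * xy k)
  · exact z _ (by linear_combination (gen k 0 ^ 2) * xc k)
  · exact z _ (by linear_combination (gen k 0) * x2g k)
  · exact z _ (by linear_combination (gen k 1 * gen k 3) * xy k)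
  · exact z _ (by linear_combination (gen k 3) * y3 k)
  · exact z _ (by linear_combination (gen k 1 ^ 2) * cg k)
  · exact z _ (by linear_combination (gen k 1 ^ 2) * g2 k)

theorem P_pow_four : P k ^ 4 ≤ Ideal.span {gen k 0 ^ 4} := by
  have e : P k ^ 4 = P k * (P k * (P k * P k)) := by ring
  rw [e]
  exact (Ideal.mul_mono_right ((Ideal.mul_mono_right (P_sq k)).trans (P_cube k))).trans
    (P_fourth k)

/-- The nonhomogeneous reduction `(x + y²)`. -/
noncomputable def J0 : Ideal (Alg k) := Ideal.span {gen k 0 + gen k 1 ^ 2}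

theorem J0_isReduction : IsReduction (P k) (J0 k) := by
  have hle : J0 k ≤ P k := by
    rw [J0, Ideal.span_le, Set.singleton_subset_iff]
    exact Ideal.add_mem _ (gen_mem_P k 0) (Ideal.pow_mem_of_mem _ (gen_mem_P k 1) 2 (by omega))
  refine ⟨hle, 3, le_antisymm ?_ ?_⟩
  · rw [pow_succ' (P k) 3]
    exact Ideal.mul_mono_left hle
  · refine (P_pow_four k).trans ?_
    rw [Ideal.span_le, Set.singleton_subset_iff]
    have : gen k 0 ^ 4 = (gen k 0 + gen k 1 ^ 2) * gen k 0 ^ 3 := by
      linear_combination (-(gen k 0 ^ 2 * gen k 1)) * xy k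
    rw [this]
    exact Ideal.mul_mem_mul (Ideal.subset_span rfl) (Ideal.pow_mem_pow (gen_mem_P k 0) 3)

/-! ### `xg` is not in `(x + y²)` -/

/-- `k[Y]/(Y³)`. -/
abbrev Trunc : Type u := Polynomial k ⧸ (Ideal.span {(Polynomial.X : Polynomial k) ^ 3})

/-- The class of `Y`. -/
noncomputable def Y : Trunc k := Ideal.Quotient.mk _ Polynomial.X

theorem Y_cube : Y k ^ 3 = 0 := by
  rw [Y, ← map_pow, Ideal.Quotient.eq_zero_iff_mem]
  exact Ideal.subset_span rfl

theorem Y_sq_ne : Y k ^ 2 ≠ 0 := by
  rw [Y, ← map_pow, Ne, Ideal.Quotient.eq_zero_iff_mem, Ideal.mem_span_singleton,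
    Polynomial.X_pow_dvd_iff]
  intro h
  have := h 2 (by norm_num)
  simp at this

/-- The map to the dual numbers over `k[Y]/(Y³)` given by
`x ↦ -Y², y ↦ Y, c ↦ -Yε, g ↦ ε`. -/
noncomputable def polyToDual : Poly k →ₐ[k] DualNumber (Trunc k) :=
  aeval ![-(TrivSqZeroExt.inl (Y k)) ^ 2, TrivSqZeroExt.inl (Y k),
    -(TrivSqZeroExt.inl (Y k)) * DualNumber.eps, DualNumber.eps]

theorem polyToDual_rel (p : Poly k) (hp : p ∈ relIdeal k) : polyToDual k p = 0 := by
  have hY : (TrivSqZeroExt.inl (Y k) : DualNumber (Trunc k)) ^ 3 = 0 := by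
    rw [TrivSqZeroExt.inl_pow, Y_cube, TrivSqZeroExt.inl_zero]
  have he : (DualNumber.eps : DualNumber (Trunc k)) * DualNumber.eps = 0 :=
    DualNumber.eps_mul_eps
  have : relIdeal k ≤ RingHom.ker (polyToDual k) := by
    rw [relIdeal, Ideal.span_le]
    intro q hq
    simp only [relSet, Set.mem_insert_iff, Set.mem_singleton_iff] at hq
    rcases hq with rfl | rfl | rfl | rfl | rfl | rfl | rfl <;>
      simp only [SetLike.mem_coe, RingHom.mem_ker, polyToDual, map_mul, map_sub, map_pow, aeval_X,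
        Matrix.cons_val_zero, Matrix.cons_val_one, Matrix.cons_val]
    · linear_combination (-1) * hY
    · exact hY
    · linear_combination DualNumber.eps * hY
    · ring
    · linear_combination (TrivSqZeroExt.inl (Y k)) ^ 2 * he
    · linear_combination (-(TrivSqZeroExt.inl (Y k))) * he
    · linear_combination he
  exact this hp

/-- The induced map on `A`. -/
noncomputable def toDual : Alg k →ₐ[k] DualNumber (Trunc k) :=
  Ideal.Quotient.liftₐ (relIdeal k) (polyToDual k) (polyToDual_rel k)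

theorem toDual_quo (p : Poly k) : toDual k (quo k p) = polyToDual k p := rfl

theorem toDual_J0 : toDual k (gen k 0 + gen k 1 ^ 2) = 0 := by
  rw [map_add, map_pow, gen, gen, toDual_quo, toDual_quo, polyToDual, aeval_X, aeval_X]
  simp

theorem toDual_xg : toDual k (gen k 0 * gen k 3) ≠ 0 := by
  rw [map_mul, gen, gen, toDual_quo, toDual_quo, polyToDual, aeval_X, aeval_X]
  simp only [Matrix.cons_val_zero, Matrix.cons_val]
  intro h
  have h2 := congrArg TrivSqZeroExt.snd h
  rw [TrivSqZeroExt.inl_pow] at h2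
  simp at h2
  exact Y_sq_ne k h2

theorem xg_notMem_J0 : gen k 0 * gen k 3 ∉ J0 k := by
  intro h
  rw [J0, Ideal.mem_span_singleton] at h
  obtain ⟨q, hq⟩ := h
  apply toDual_xg k
  rw [hq, map_mul, toDual_J0, zero_mul]

/-! ### Homogeneous reductions contain `xg` -/

theorem polyToLine_of_isHomogeneous {s : Poly k} {n : ℕ} (hs : s.IsHomogeneous n) :
    ∃ a : k, polyToLine k s = Polynomial.C a * Polynomial.X ^ n := by
  rw [polyToLine, aeval_def, eval₂_eq']
  have key : ∀ d ∈ s.support, ∃ a : k,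
      (algebraMap k (Polynomial k)) (coeff d s) *
        ∏ i : Fin 4, (if i = 0 then (Polynomial.X : Polynomial k) else 0) ^ d i =
      Polynomial.C a * Polynomial.X ^ n := by
    intro d hd
    by_cases h : d 1 = 0 ∧ d 2 = 0 ∧ d 3 = 0
    · refine ⟨coeff d s, ?_⟩
      have hdeg := hs.degree_eq_sum_deg_support hd
      have hn : d 0 = n := by
        have e : ∑ i ∈ d.support, d i = ∑ i, d i :=
          Finset.sum_subset (Finset.subset_univ _) (fun i _ hi => by simpa using hi)
        rw [hdeg, e, Fin.sum_univ_four]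
        omega
      rw [Fin.prod_univ_four]
      simp [h.1, h.2.1, h.2.2, hn]
    · refine ⟨0, ?_⟩
      have h' : d 1 ≠ 0 ∨ d 2 ≠ 0 ∨ d 3 ≠ 0 := by tauto
      rw [Fin.prod_univ_four]
      rcases h' with h' | h' | h' <;> simp [h']
  choose! a ha using key
  refine ⟨∑ d ∈ s.support, a d, ?_⟩
  rw [Finset.sum_congr rfl ha, map_sum, Finset.sum_mul]

theorem toLine_of_mem {n : ℕ} {b : Alg k} (hb : b ∈ grading k n) :
    ∃ a : k, toLine k b = Polynomial.C a * Polynomial.X ^ n := by
  obtain ⟨s, hs, rfl⟩ := (mem_pushGrading _ _).1 hb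
  rw [toLine_quo]
  exact polyToLine_of_isHomogeneous k hs

theorem toLine_P {a : Alg k} (ha : a ∈ P k) :
    toLine k a ∈ Ideal.span {(Polynomial.X : Polynomial k)} := by
  rw [P_eq] at ha
  have : Ideal.span (Set.range (gen k)) ≤
      (Ideal.span {(Polynomial.X : Polynomial k)}).comap (toLine k) := by
    rw [Ideal.span_le]
    rintro _ ⟨i, rfl⟩
    simp only [SetLike.mem_coe, Ideal.mem_comap, toLine_gen]
    split_ifs
    · exact Ideal.subset_span rfl
    · exact Ideal.zero_mem _
  exact this ha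

theorem exists_linear {J : Ideal (Alg k)} (hJ : IsReduction (P k) J)
    (hhom : J.IsHomogeneous (grading k)) :
    ∃ l ∈ J, l ∈ grading k 1 ∧ toLine k l ≠ 0 := by
  classical
  by_contra hcon
  push Not at hcon
  obtain ⟨hle, n, hn⟩ := hJ
  have h2 : ∀ a ∈ J, toLine k a ∈ Ideal.span {(Polynomial.X : Polynomial k) ^ 2} := by
    intro a ha
    rw [← DirectSum.sum_support_decompose (grading k) a, map_sum]
    apply Ideal.sum_mem
    intro i _
    have hai := hhom i ha
    rcases Nat.lt_or_ge i 2 with hi | hi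
    · interval_cases i
      · have hP := hle hai
        obtain ⟨c, hc⟩ := (inferInstance : IsStandardGraded (grading k)).degree_zero _
          (SetLike.coe_mem (DirectSum.decompose (grading k) a 0))
        have hc0 : c = 0 := by
          by_contra h
          exact algebraMap_notMem_plus (grading k) h (hc ▸ hP)
        rw [← hc, hc0, map_zero, map_zero]
        exact Ideal.zero_mem _
      · rw [hcon _ hai (SetLike.coe_mem _)]
        exact Ideal.zero_mem _
    · obtain ⟨c, hc⟩ := toLine_of_mem k (SetLike.coe_mem (DirectSum.decompose (grading k) a i))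
      rw [hc, Ideal.mem_span_singleton]
      exact (pow_dvd_pow _ hi).mul_left _
  have h3 : J.map (toLine k) ≤ Ideal.span {(Polynomial.X : Polynomial k) ^ 2} := by
    rw [Ideal.map_le_iff_le_comap]
    intro a ha
    exact h2 a ha
  have h4 : (P k).map (toLine k) ≤ Ideal.span {(Polynomial.X : Polynomial k)} := by
    rw [Ideal.map_le_iff_le_comap]
    intro a ha
    exact toLine_P k ha
  have h5 : toLine k (gen k 0 ^ (n + 1)) ∈ Ideal.span {(Polynomial.X : Polynomial k) ^ (n + 2)} := by
    have m1 : gen k 0 ^ (n + 1) ∈ J * P k ^ n := by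
      rw [hn]
      exact Ideal.pow_mem_pow (gen_mem_P k 0) (n + 1)
    have m2 := Ideal.mem_map_of_mem (toLine k) m1
    rw [Ideal.map_mul, Ideal.map_pow] at m2
    have m3 : J.map (toLine k) * (P k).map (toLine k) ^ n ≤
        Ideal.span {(Polynomial.X : Polynomial k) ^ 2} *
          Ideal.span {(Polynomial.X : Polynomial k)} ^ n :=
      Ideal.mul_mono h3 (Ideal.pow_right_mono h4 n)
    have m4 := m3 m2
    rw [Ideal.span_singleton_pow, Ideal.span_singleton_mul_span_singleton, ← pow_add] at m4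
    rwa [add_comm 2 n] at m4
  rw [map_pow, toLine_gen, if_pos rfl, Ideal.mem_span_singleton, Polynomial.X_pow_dvd_iff] at h5
  have := h5 (n + 1) (by omega)
  simp at this

theorem linear_form {l : Alg k} (hl : l ∈ grading k 1) :
    ∃ b : Fin 4 → k, l = ∑ i, algebraMap k (Alg k) (b i) * gen k i := by
  obtain ⟨s, hs, rfl⟩ := (mem_pushGrading _ _).1 hl
  rw [homogeneousSubmodule_one_eq_span_X] at hs
  obtain ⟨b, hb⟩ := (Submodule.mem_span_range_iff_exists_fun k).1 hs
  refine ⟨b, ?_⟩
  rw [← hb, map_sum]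
  refine Finset.sum_congr rfl (fun i _ => ?_)
  rw [smul_eq_C_mul, map_mul]
  rfl

theorem xg_mem {J : Ideal (Alg k)} (hJ : IsReduction (P k) J)
    (hhom : J.IsHomogeneous (grading k)) : gen k 0 * gen k 3 ∈ J := by
  obtain ⟨l, hlJ, hl1, hl0⟩ := exists_linear k hJ hhom
  obtain ⟨b, hb⟩ := linear_form k hl1
  have hb0 : b 0 ≠ 0 := by
    intro h
    apply hl0
    rw [hb, map_sum, Fin.sum_univ_four]
    simp [toLine_gen, h]
  rw [Fin.sum_univ_four] at hb
  by_cases h1 : b 1 = 0
  · have e : algebraMap k (Alg k) (b 0) * (gen k 0 * gen k 3) = l * gen k 3 := by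
      rw [hb, h1, map_zero]
      linear_combination (-(algebraMap k (Alg k) (b 2))) * cg k - (algebraMap k (Alg k) (b 3)) * g2 k
    have m : algebraMap k (Alg k) (b 0) * (gen k 0 * gen k 3) ∈ J := by
      rw [e]; exact Ideal.mul_mem_right _ _ hlJ
    have := J.mul_mem_left (algebraMap k (Alg k) (b 0)⁻¹) m
    rwa [← mul_assoc, ← map_mul, inv_mul_cancel₀ hb0, map_one, one_mul] at this
  · have e : algebraMap k (Alg k) (b 1) * (gen k 0 * gen k 3) = l * gen k 2 := by
      rw [hb]
      linear_combination (-(algebraMap k (Alg k) (b 0))) * xc k -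
        (algebraMap k (Alg k) (b 1)) * yc k - (algebraMap k (Alg k) (b 2)) * c2 k -
        (algebraMap k (Alg k) (b 3)) * cg k
    have m : algebraMap k (Alg k) (b 1) * (gen k 0 * gen k 3) ∈ J := by
      rw [e]; exact Ideal.mul_mem_right _ _ hlJ
    have := J.mul_mem_left (algebraMap k (Alg k) (b 1)⁻¹) m
    rwa [← mul_assoc, ← map_mul, inv_mul_cancel₀ h1, map_one, one_mul] at this

end Pool.Agent.CoreIdeals.Example
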